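import Pool.Agent.MP_5f72fe_nt.H25.SpecD
import Pool.Agent.MP_5f72fe_nt.H16.TER1

/-! Ternary theta series with an antisymmetric weight. -/

namespace Pool.Agent.MP_5f72fe_nt.H70P

open Complex Pool.Agent.MP_5f72fe_nt.H3 Pool.Agent.MP_5f72fe_nt.H25
open Pool.Agent.MP_5f72fe_nt.H16 (lin gauss1 sum_ite hat_one thX_mul chi3_cases)
open scoped Real

noncomputable section

/-- the quadratic form -/
def Qf (v : V) : ℤ := v.1 ^ 2 + 3 * v.2.1 ^ 2 + v.2.2 ^ 2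

/-- the multiples of three -/
def dl : ℤ → ℂ := fun b => if 3 ∣ b then 1 else 0

/-- the weight -/
def wt (μ : ℕ) (v : V) : ℂ :=
  if v.1 % 2 = μ ∧ v.2.1 % 2 = v.2.2 % 2 then dl v.2.2 - dl v.1 else 0

def Th (s w₁ w₂ : ℂ) (μ d : ℕ) (τ : ℂ) : ℂ :=
  ∑' v : V, wt μ v * lin s w₁ w₂ v ^ d * E (Qf v * τ / 12)

def Fu (s w₁ w₂ : ℂ) (μ : ℕ) (τ u : ℂ) : ℂ :=
  ∑' v : V, wt μ v * E (Qf v * τ / 12 + u * lin s w₁ w₂ v)

theorem norm_wt (μ : ℕ) (v : V) : ‖wt μ v‖ ≤ 1 := by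
  unfold wt dl
  split_ifs <;> simp

theorem dl_per (b : ℤ) : dl (b + (3 : ℕ)) = dl b := by
  unfold dl
  simp

theorem E_Q (J : RowJH) (τ : ℂ) (v : V) : E (Qf v * τ / 12) =
    E (v.1 ^ 2 * τ / (4 * (3 : ℕ))) * (E (v.2.1 ^ 2 * τ / (4 * (1 : ℕ))) *
      E (v.2.2 ^ 2 * τ / (4 * (3 : ℕ)))) := by
  rw [← J.add, ← J.add]
  congr 1
  unfold Qf
  push_cast
  ring

theorem gauss3 (J : RowJH) (T : RowTH) (s w₁ w₂ τ : ℂ) (hτ : 0 < τ.im) (R : ℝ) (hR : 0 ≤ R) :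
    Summable fun v : V => ‖E (Qf v * τ / 12)‖ * Real.exp (R * ‖lin s w₁ w₂ v‖) := by
  have h1 := gauss1 J T 3 (by decide) τ hτ (R * ‖s‖)
  have h2 := gauss1 J T 1 odd_one τ hτ (R * ‖w₁‖)
  have h3 := gauss1 J T 3 (by decide) τ hτ (R * ‖w₂‖)
  have h23 := h2.mul_of_nonneg h3 (fun b => by positivity) (fun b => by positivity)
  have h := h1.mul_of_nonneg h23 (fun b => by positivity) (fun b => by positivity)
  refine Summable.of_nonneg_of_le (fun v => by positivity) (fun v => ?_) h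
  rw [E_Q J, norm_mul, norm_mul]
  have hl : ‖lin s w₁ w₂ v‖ ≤ ‖s‖ * |(v.1 : ℝ)| + ‖w₁‖ * |(v.2.1 : ℝ)| + ‖w₂‖ * |(v.2.2 : ℝ)| := by
    unfold lin
    refine (norm_add₃_le).trans (le_of_eq ?_)
    simp only [norm_mul, norm_intCast]
  have he : Real.exp (R * ‖lin s w₁ w₂ v‖) ≤ Real.exp (R * ‖s‖ * |(v.1 : ℝ)|) *
      (Real.exp (R * ‖w₁‖ * |(v.2.1 : ℝ)|) * Real.exp (R * ‖w₂‖ * |(v.2.2 : ℝ)|)) := by
    rw [← Real.exp_add, ← Real.exp_add]
    refine Real.exp_le_exp.2 ?_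
    have := mul_le_mul_of_nonneg_left hl hR
    linarith
  refine (mul_le_mul_of_nonneg_left he (by positivity)).trans (le_of_eq ?_)
  ring

theorem expand (J : RowJH) (T : RowTH) (s w₁ w₂ : ℂ) (μ : ℕ) (τ : ℂ) (hτ : 0 < τ.im) (u : ℂ) :
    HasSum (fun d : ℕ => (2 * π * I * u) ^ d / d.factorial * Th s w₁ w₂ μ d τ)
      (Fu s w₁ w₂ μ τ u) := by
  set f : V × ℕ → ℂ := fun p => wt μ p.1 * E (Qf p.1 * τ / 12) *
    ((2 * π * I * (u * lin s w₁ w₂ p.1)) ^ p.2 / p.2.factorial) with hf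
  have hn : ∀ v : V, HasSum (fun d : ℕ => ‖f (v, d)‖) (‖wt μ v * E (Qf v * τ / 12)‖ *
      Real.exp ‖2 * π * I * (u * lin s w₁ w₂ v)‖) := by
    intro v
    have h := (NormedSpace.expSeries_div_hasSum_exp
      (‖2 * π * I * (u * lin s w₁ w₂ v)‖ : ℝ)).mul_left ‖wt μ v * E (Qf v * τ / 12)‖
    rw [← Real.exp_eq_exp_ℝ] at h
    refine h.congr_fun fun d => ?_
    simp only [hf]
    rw [norm_mul (_ * _), norm_div, norm_pow, Complex.norm_natCast]
  have hs : Summable f := by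
    refine Summable.of_norm ((summable_prod_of_nonneg fun p => norm_nonneg _).2
      ⟨fun v => (hn v).summable, ?_⟩)
    refine Summable.of_nonneg_of_le (fun v => tsum_nonneg fun d => norm_nonneg _) (fun v => ?_)
      (gauss3 J T s w₁ w₂ τ hτ (‖2 * π * I * u‖) (norm_nonneg _))
    rw [(hn v).tsum_eq, ← mul_assoc _ u, norm_mul (_ * u), norm_mul]
    refine mul_le_mul_of_nonneg_right ?_ (Real.exp_pos _).le
    exact mul_le_of_le_one_left (norm_nonneg _) (norm_wt μ v)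
  have h1 : HasSum (fun v : V => wt μ v * E (Qf v * τ / 12 + u * lin s w₁ w₂ v)) (∑' p, f p) := by
    refine hs.hasSum.prod_fiberwise fun v => ?_
    have h := (NormedSpace.expSeries_div_hasSum_exp
      (2 * π * I * (u * lin s w₁ w₂ v) : ℂ)).mul_left (wt μ v * E (Qf v * τ / 12))
    rw [← Complex.exp_eq_exp_ℂ] at h
    rw [J.add, ← mul_assoc]
    exact h
  have h2 : HasSum (fun p : ℕ × V => f p.swap) (∑' p, f p) :=
    (Equiv.prodComm ℕ V).hasSum_iff.2 hs.hasSum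
  unfold Fu
  rw [h1.tsum_eq]
  refine h2.prod_fiberwise fun d => ?_
  have h3 : Summable fun v : V => f (v, d) := h2.summable.prod_factor d
  have h4 : ∀ v : V, f (v, d) = (2 * π * I * u) ^ d / d.factorial *
      (wt μ v * lin s w₁ w₂ v ^ d * E (Qf v * τ / 12)) := by
    intro v
    simp only [hf]
    rw [← mul_assoc _ u, mul_pow]
    ring
  unfold Th
  rw [← tsum_mul_left]
  have h5 := h3.hasSum
  simp only [h4] at h5
  simpa only [Prod.swap_prod_mk, h4] using h5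

theorem prod3 (J : RowJH) (T : RowTH) (s w₁ w₂ : ℂ) (μ : ℕ) (τ : ℂ) (hτ : 0 < τ.im) (u : ℂ) :
    Fu s w₁ w₂ μ τ u = thX 3 (fun _ => 1) μ τ (u * s) *
      (thX 1 (fun _ => 1) 0 τ (u * w₁) * thX 3 dl 0 τ (u * w₂) +
        thX 1 (fun _ => 1) 1 τ (u * w₁) * thX 3 dl 1 τ (u * w₂)) -
      thX 3 dl μ τ (u * s) *
      (thX 1 (fun _ => 1) 0 τ (u * w₁) * thX 3 (fun _ => 1) 0 τ (u * w₂) +
        thX 1 (fun _ => 1) 1 τ (u * w₁) * thX 3 (fun _ => 1) 1 τ (u * w₂)) := by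
  have h1 := fun (ν : ℕ) (w : ℂ) => sum_ite (fun b : ℤ => b % 2 = ν)
    (T 1 (fun _ => 1) odd_one (fun _ => rfl) τ w hτ 0 (by norm_num)).1
  have h2 := fun (ν : ℕ) (w : ℂ) => sum_ite (fun b : ℤ => b % 2 = ν)
    (T 3 dl (by decide) dl_per τ w hτ 0 (by norm_num)).1
  have h3 := fun (ν : ℕ) (w : ℂ) => sum_ite (fun b : ℤ => b % 2 = ν)
    (T 3 (fun _ => 1) (by decide) (fun _ => rfl) τ w hτ 0 (by norm_num)).1
  have h20 := (h1 0 (u * w₁)).mul_norm (h2 0 (u * w₂))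
  have h21 := (h1 1 (u * w₁)).mul_norm (h2 1 (u * w₂))
  have h30 := (h1 0 (u * w₁)).mul_norm (h3 0 (u * w₂))
  have h31 := (h1 1 (u * w₁)).mul_norm (h3 1 (u * w₂))
  have k2 := (h20.of_norm.add h21.of_norm).norm
  have k3 := (h30.of_norm.add h31.of_norm).norm
  unfold thX
  rw [tsum_mul_tsum_of_summable_norm (h1 0 _) (h2 0 _),
    tsum_mul_tsum_of_summable_norm (h1 1 _) (h2 1 _), ← h20.of_norm.tsum_add h21.of_norm,
    tsum_mul_tsum_of_summable_norm (h3 μ _) k2,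
    tsum_mul_tsum_of_summable_norm (h1 0 _) (h3 0 _),
    tsum_mul_tsum_of_summable_norm (h1 1 _) (h3 1 _), ← h30.of_norm.tsum_add h31.of_norm,
    tsum_mul_tsum_of_summable_norm (h2 μ _) k3,
    ← ((h3 μ _).mul_norm k2).of_norm.tsum_sub ((h2 μ _).mul_norm k3).of_norm]
  unfold Fu
  refine tsum_congr fun v => ?_
  have hE : E (Qf v * τ / 12 + u * lin s w₁ w₂ v) =
      E (v.1 ^ 2 * τ / (4 * (3 : ℕ)) + v.1 * (u * s)) *
        (E (v.2.1 ^ 2 * τ / (4 * (1 : ℕ)) + v.2.1 * (u * w₁)) *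
          E (v.2.2 ^ 2 * τ / (4 * (3 : ℕ)) + v.2.2 * (u * w₂))) := by
    rw [← J.add, ← J.add]
    congr 1
    unfold Qf lin
    push_cast
    ring
  rw [hE]
  unfold wt
  by_cases ha : v.1 % 2 = μ
  · rcases Int.emod_two_eq_zero_or_one v.2.1 with hy | hy <;>
      rcases Int.emod_two_eq_zero_or_one v.2.2 with hb | hb <;>
      simp only [ha, hy, hb, Nat.cast_zero, Nat.cast_one, if_true, if_false, and_self, zero_ne_one,
        one_ne_zero, and_false, mul_zero, zero_mul, add_zero, zero_add, one_mul] <;> ring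
  · simp only [ha, false_and, if_false, zero_mul, sub_zero]

theorem hat_dl (J : RowJH) : hat 3 dl = fun _ => ((√3 : ℝ) : ℂ)⁻¹ * 1 := by
  funext b
  have h := J.int 0
  simp only [Int.cast_zero] at h
  unfold hat dl
  rw [Finset.sum_range_succ, Finset.sum_range_succ, Finset.sum_range_one, if_pos (by decide),
    if_neg (by decide), if_neg (by decide)]
  simp [h]

theorem hat_cst (J : RowJH) : hat 3 (fun _ => 1) = fun b => ((√3 : ℝ) : ℂ) * dl b := by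
  funext b
  have h3 : ((√3 : ℝ) : ℂ) ^ 2 = 3 := by
    rw [← ofReal_pow, Real.sq_sqrt (by norm_num)]; norm_num
  have h30 : ((√3 : ℝ) : ℂ) ≠ 0 := by
    intro h; rw [h] at h3; norm_num at h3
  have e0 : E 0 = 1 := by simpa using J.int 0
  have e1 := J.quarter.2.2.2
  have e2 : E (2 / 3) = (-1 - I * (√3 : ℝ)) / 2 := by
    rw [show (2 / 3 : ℂ) = 1 / 3 + 1 / 3 by norm_num, J.add, e1]
    linear_combination (1 / 4 : ℂ) * (√3 : ℝ) ^ 2 * I_sq - (1 / 4 : ℂ) * h3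
  have sh : ∀ (x y : ℂ) (n : ℤ), x = y + n → E x = E y := by
    intro x y n h
    rw [h, J.add, J.int, mul_one]
  unfold hat
  rw [Finset.sum_range_succ, Finset.sum_range_succ, Finset.sum_range_one,
    div_eq_iff (by exact_mod_cast h30), sh (-(((0 : ℕ) : ℂ) * _ * _) / _) 0 0 (by simp), e0]
  obtain ⟨q, hq⟩ : ∃ q : ℤ, b = 3 * q + b % 3 := ⟨b / 3, by omega⟩
  unfold dl
  rcases chi3_cases b with h | h | h
  · rw [h.1] at hq
    rw [if_pos (by omega), sh (-(((1 : ℕ) : ℂ) * _ * _) / _) 0 (-2 * q) ?_,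
      sh (-(((2 : ℕ) : ℂ) * _ * _) / _) 0 (-4 * q) ?_, e0]
    · push_cast; linear_combination -h3
    · rw [hq]; push_cast; ring
    · rw [hq]; push_cast; ring
  · rw [h.1] at hq
    rw [if_neg (by omega), sh (-(((1 : ℕ) : ℂ) * _ * _) / _) (1 / 3) (-2 * q - 1) ?_,
      sh (-(((2 : ℕ) : ℂ) * _ * _) / _) (2 / 3) (-4 * q - 2) ?_, e1, e2]
    · push_cast; ring
    · rw [hq]; push_cast; ring
    · rw [hq]; push_cast; ring
  · rw [h.1] at hq
    rw [if_neg (by omega), sh (-(((1 : ℕ) : ℂ) * _ * _) / _) (2 / 3) (-2 * q - 2) ?_,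
      sh (-(((2 : ℕ) : ℂ) * _ * _) / _) (1 / 3) (-4 * q - 3) ?_, e1, e2]
    · push_cast; ring
    · rw [hq]; push_cast; ring
    · rw [hq]; push_cast; ring

theorem lawF (J : RowJH) (T : RowTH) (s w₁ w₂ : ℂ) (h0 : 3 * s ^ 2 + w₁ ^ 2 + 3 * w₂ ^ 2 = 0)
    (μ : ℕ) (hμ : μ < 2) (τ : ℂ) (hτ : 0 < τ.im) (u : ℂ) :
    Fu s w₁ w₂ μ (-1 / τ) (u / τ) = -Jh τ ^ 3 *
      ((Fu s w₁ w₂ 0 τ u + (-1) ^ μ * Fu s w₁ w₂ 1 τ u) / (√2 : ℝ)) := by
  have hτ0 : τ ≠ 0 := by rintro rfl; simp at hτ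
  have hτ' : 0 < (-1 / τ).im := by
    rw [neg_div, one_div, neg_im, inv_im, neg_div, neg_neg]
    exact div_pos hτ (normSq_pos.2 hτ0)
  have h1 := fun (ν : ℕ) (hν : ν < 2) (w : ℂ) =>
    (T 1 (fun _ => 1) odd_one (fun _ => rfl) τ w hτ ν hν).2
  have h2 := fun (ν : ℕ) (hν : ν < 2) (w : ℂ) => (T 3 dl (by decide) dl_per τ w hτ ν hν).2
  have h3 := fun (ν : ℕ) (hν : ν < 2) (w : ℂ) =>
    (T 3 (fun _ => 1) (by decide) (fun _ => rfl) τ w hτ ν hν).2
  simp only [hat_one J] at h1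
  simp only [hat_dl J, thX_mul] at h2
  simp only [hat_cst J, thX_mul] at h3
  have hu : ∀ w : ℂ, u / τ * w = u * w / τ := fun w => by ring
  rw [prod3 J T _ _ _ _ _ hτ', prod3 J T _ _ _ _ _ hτ, prod3 J T _ _ _ _ _ hτ, hu, hu, hu,
    h3 μ hμ, h2 μ hμ, h1 0 (by norm_num), h1 1 (by norm_num), h2 0 (by norm_num),
    h2 1 (by norm_num), h3 0 (by norm_num), h3 1 (by norm_num)]
  have hE : E ((3 : ℕ) * (u * s) ^ 2 / τ) * (E ((1 : ℕ) * (u * w₁) ^ 2 / τ) *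
      E ((3 : ℕ) * (u * w₂) ^ 2 / τ)) = 1 := by
    rw [← J.add, ← J.add, ← J.int 0]
    congr 1
    push_cast
    linear_combination (u ^ 2 / τ) * h0
  have h2' : ((√2 : ℝ) : ℂ) ^ 2 = 2 := by
    rw [← ofReal_pow, Real.sq_sqrt (by norm_num)]; norm_num
  have hi : (((√2 : ℝ) : ℂ))⁻¹ ^ 2 * 2 = 1 := by
    rw [inv_pow, h2']; norm_num
  have h30 : ((√3 : ℝ) : ℂ) * ((√3 : ℝ) : ℂ)⁻¹ = 1 :=
    mul_inv_cancel₀ (by rw [ofReal_ne_zero]; positivity)
  generalize E ((3 : ℕ) * (u * s) ^ 2 / τ) = e1 at *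
  generalize E ((1 : ℕ) * (u * w₁) ^ 2 / τ) = e2 at *
  generalize E ((3 : ℕ) * (u * w₂) ^ 2 / τ) = e3 at *
  generalize thX 3 (fun _ => 1) 0 τ (u * s) = a0
  generalize thX 3 (fun _ => 1) 1 τ (u * s) = a1
  generalize thX 3 dl 0 τ (u * s) = p0
  generalize thX 3 dl 1 τ (u * s) = p1
  generalize thX 3 (fun _ => 1) 0 τ (u * w₂) = b0
  generalize thX 3 (fun _ => 1) 1 τ (u * w₂) = b1
  generalize thX 3 dl 0 τ (u * w₂) = q0
  generalize thX 3 dl 1 τ (u * w₂) = q1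
  generalize thX 1 (fun _ => 1) 0 τ (u * w₁) = c0
  generalize thX 1 (fun _ => 1) 1 τ (u * w₁) = c1
  simp only [div_eq_mul_inv]
  generalize (((√2 : ℝ) : ℂ))⁻¹ = r at *
  generalize (((√3 : ℝ) : ℂ))⁻¹ = t' at *
  generalize ((√3 : ℝ) : ℂ) = t at *
  generalize ((-1 : ℂ)) ^ μ = ε
  linear_combination (Jh τ ^ 3 * r * ((p0 + ε * p1) * (c0 * b0 + c1 * b1) -
      (a0 + ε * a1) * (c0 * q0 + c1 * q1))) * ((t * t') * (r ^ 2 * 2) * hE + (t * t') * hi + h30)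

theorem lawTh (S : RowSER) (J : RowJH) (T : RowTH) (s w₁ w₂ : ℂ)
    (h0 : 3 * s ^ 2 + w₁ ^ 2 + 3 * w₂ ^ 2 = 0) (μ : ℕ) (hμ : μ < 2) (τ : ℂ) (hτ : 0 < τ.im)
    (d : ℕ) :
    Th s w₁ w₂ μ d (-1 / τ) = τ ^ d * (-Jh τ ^ 3 *
      ((Th s w₁ w₂ 0 d τ + (-1) ^ μ * Th s w₁ w₂ 1 d τ) / (√2 : ℝ))) := by
  have hτ0 : τ ≠ 0 := by rintro rfl; simp at hτ
  have hτ' : 0 < (-1 / τ).im := by
    rw [neg_div, one_div, neg_im, inv_im, neg_div, neg_neg]
    exact div_pos hτ (normSq_pos.2 hτ0)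
  have hp : ∀ (σ : ℂ) (n : ℕ), E (n * σ / (1 : ℕ)) = E σ ^ n := by
    intro σ n
    unfold E
    rw [← Complex.exp_nat_mul]
    congr 1
    push_cast
    ring
  have h := S.uniq 1 (fun d : ℕ => (2 * π * I) ^ d / d.factorial *
    (Th s w₁ w₂ μ d (-1 / τ) / τ ^ d - -Jh τ ^ 3 *
      ((Th s w₁ w₂ 0 d τ + (-1) ^ μ * Th s w₁ w₂ 1 d τ) / (√2 : ℝ)))) 0 one_pos (by
      intro σ _
      have a := expand J T s w₁ w₂ μ _ hτ' (E σ / τ)
      have b := (((expand J T s w₁ w₂ 0 τ hτ (E σ)).add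
        ((expand J T s w₁ w₂ 1 τ hτ (E σ)).mul_left ((-1) ^ μ))).div_const
          ((√2 : ℝ) : ℂ)).mul_left (-Jh τ ^ 3)
      rw [lawF J T s w₁ w₂ h0 μ hμ τ hτ] at a
      have c := a.sub b
      rw [sub_self] at c
      refine c.congr_fun fun n => ?_
      rw [hp, mul_pow _ (E σ / τ), mul_pow _ (E σ), div_pow]
      ring)
  have h' := congrFun h d
  simp only [Pi.zero_apply] at h'
  have hc : (2 * π * I : ℂ) ^ d / d.factorial ≠ 0 :=
    div_ne_zero (pow_ne_zero _ two_pi_I_ne_zero) (Nat.cast_ne_zero.2 d.factorial_ne_zero)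
  have h'' := sub_eq_zero.1 ((mul_eq_zero.1 h').resolve_left hc)
  rw [← h'']
  field_simp

/-- the middle coordinate times three -/
def io (v : V) : V := (v.1, 3 * v.2.1, v.2.2)

theorem io_inj : Function.Injective io := by
  rintro ⟨a, y, b⟩ ⟨a', y', b'⟩ h
  simp only [io, Prod.mk.injEq] at h ⊢
  omega

/-- the vectors of norm `n` -/
def Rq (n : ℕ) : Finset V := (Rp (3 * n)).preimage io io_inj.injOn

theorem mem_Rq (n : ℕ) (v : V) : v ∈ Rq n ↔ Qf v = n ∧ v.2.1 % 2 = v.2.2 % 2 := by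
  unfold Rq
  rw [Finset.mem_preimage, H16.mem_Rp]
  unfold H16.Qf Qf io
  simp only [mul_pow]
  push_cast
  omega

theorem sum_Rq (s w₁ w₂ : ℂ) (d n : ℕ) :
    ∑ v ∈ Rp (3 * n), (ep v : ℂ) * (s * v.1 + w₁ * v.2.1 + w₂ * v.2.2) ^ d =
      ∑ v ∈ Rq n, (dl v.2.2 - dl v.1) * lin s (3 * w₁) w₂ v ^ d := by
  unfold Rq
  rw [← Finset.sum_preimage io (Rp (3 * n)) io_inj.injOn]
  · refine Finset.sum_congr rfl fun v _ => ?_
    have k : ∀ y : ℤ, (chi3 y : ℂ) ^ 2 = 1 - dl y := fun y => by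
      unfold dl
      rcases chi3_cases y with h | h | h
      · rw [h.2, if_pos (by omega)]; simp
      · rw [h.2, if_neg (by omega)]; simp
      · rw [h.2, if_neg (by omega)]; simp
    unfold ep io lin
    rw [if_pos (Dvd.intro _ rfl)]
    push_cast
    rw [k, k]
    congr 1
    · ring
    · congr 1
      ring
  · intro v _ hv
    unfold ep
    rw [if_neg, Int.cast_zero, zero_mul]
    rintro ⟨y, hy⟩
    exact hv ⟨(v.1, y, v.2.2), by simp only [io, ← hy]⟩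

theorem Qf_mod (v : V) (h : v.2.1 % 2 = v.2.2 % 2) :
    Qf v % 4 = v.1 % 2 ∧ (dl v.2.2 - dl v.1 ≠ 0 → Qf v % 3 = 1) := by
  have s4 : ∀ x : ℤ, x ^ 2 % 4 = x % 2 := by
    intro x
    obtain ⟨q, hq | hq⟩ := Int.even_or_odd' x
    · have : x ^ 2 = 4 * q ^ 2 := by rw [hq]; ring
      omega
    · have : x ^ 2 = 4 * (q ^ 2 + q) + 1 := by rw [hq]; ring
      omega
  have s3 : ∀ x : ℤ, x ^ 2 % 3 = if 3 ∣ x then 0 else 1 := by
    intro x
    have : x % 3 = 0 ∨ x % 3 = 1 ∨ x % 3 = 2 := by omega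
    rcases this with h | h | h <;> simp [pow_two, Int.mul_emod, h, Int.dvd_iff_emod_eq_zero]
  have a1 := s4 v.1
  have a2 := s4 v.2.1
  have a3 := s4 v.2.2
  have a4 := s3 v.1
  have a5 := s3 v.2.2
  unfold Qf dl
  refine ⟨by omega, fun hd => ?_⟩
  split_ifs at hd a4 a5
  · simp at hd
  · omega
  · omega
  · simp at hd

theorem hasSum_Th (J : RowJH) (T : RowTH) (s w₁ w₂ : ℂ) (μ d : ℕ) (τ : ℂ) (hτ : 0 < τ.im) :
    HasSum (fun n : ℕ => par μ (fun n => ∑ v ∈ Rq n, (dl v.2.2 - dl v.1) * lin s w₁ w₂ v ^ d) n *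
      E (n * τ / (12 : ℕ))) (Th s w₁ w₂ μ d τ) := by
  have hs : Summable fun v : V => wt μ v * lin s w₁ w₂ v ^ d * E (Qf v * τ / 12) := by
    refine Summable.of_norm_bounded
      ((gauss3 J T s w₁ w₂ τ hτ 1 zero_le_one).mul_left (d.factorial : ℝ)) fun v => ?_
    rw [norm_mul, norm_mul, norm_pow, one_mul]
    have h1 : ‖lin s w₁ w₂ v‖ ^ d ≤ d.factorial * Real.exp ‖lin s w₁ w₂ v‖ := by
      have := Real.pow_div_factorial_le_exp _ (norm_nonneg (lin s w₁ w₂ v)) d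
      rwa [div_le_iff₀' (by positivity)] at this
    have h2 : ‖wt μ v‖ * ‖lin s w₁ w₂ v‖ ^ d ≤ d.factorial * Real.exp ‖lin s w₁ w₂ v‖ :=
      (mul_le_of_le_one_left (by positivity) (norm_wt μ v)).trans h1
    refine (mul_le_mul_of_nonneg_right h2 (norm_nonneg _)).trans (le_of_eq ?_)
    ring
  refine (hs.hasSum.tsum_fiberwise fun v : V => (Qf v).toNat).congr_fun fun n => ?_
  rw [tsum_subtype ((fun v : V => (Qf v).toNat) ⁻¹' {n})
    fun v : V => wt μ v * lin s w₁ w₂ v ^ d * E (Qf v * τ / 12), tsum_eq_sum (s := Rq n)]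
  · unfold par
    split_ifs with hn
    · rw [Finset.sum_mul]
      refine Finset.sum_congr rfl fun v hv => ?_
      obtain ⟨h1, h2⟩ := (mem_Rq n v).1 hv
      have h3 := (Qf_mod v h2).1
      rw [Set.indicator_of_mem (by simp [h1]), h1]
      unfold wt
      rw [if_pos ⟨by omega, h2⟩]
      push_cast
      rfl
    · rw [zero_mul]
      refine (Finset.sum_eq_zero fun v hv => ?_).symm
      obtain ⟨h1, h2⟩ := (mem_Rq n v).1 hv
      have h3 := (Qf_mod v h2).1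
      rw [Set.indicator_of_mem (by simp [h1])]
      unfold wt
      rw [if_neg (by omega), zero_mul, zero_mul]
  · intro v hv
    rw [mem_Rq] at hv
    by_cases h : v ∈ (fun v : V => (Qf v).toNat) ⁻¹' {n}
    · rw [Set.indicator_of_mem h]
      have h1 : (Qf v).toNat = n := h
      have h2 : 0 ≤ Qf v := by unfold Qf; positivity
      unfold wt
      rw [if_neg (by omega), zero_mul, zero_mul]
    · exact Set.indicator_of_notMem h _

theorem rowTER1P : OfTER1P := by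
  intro S J T d s w w₂ _ h00
  simp only [sum_Rq]
  have h0 : 3 * s ^ 2 + (3 * w) ^ 2 + 3 * w₂ ^ 2 = 0 := by linear_combination 3 * h00
  generalize 3 * w = w₁ at h0 ⊢
  set c : ℕ → ℂ := fun n => ∑ v ∈ Rq n, (dl v.2.2 - dl v.1) * lin s w₁ w₂ v ^ d with hc
  refine ⟨fun r hr0 hr1 => ?_, fun n hn => ?_, fun τ hτ μ hμ => ?_⟩
  · obtain ⟨t, ht0, ht1, hrt⟩ : ∃ t : ℝ, 0 < t ∧ t < 1 ∧ r ≤ t :=
      ⟨max r (1 / 2), by positivity, max_lt hr1 (by norm_num), le_max_left _ _⟩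
    have hl : Real.log t < 0 := Real.log_neg ht0 ht1
    have hπ := Real.pi_pos
    set τ : ℂ := I * ((-(12 * Real.log t) / (2 * π) : ℝ) : ℂ) with hτd
    have hτ : 0 < τ.im := by
      rw [hτd, I_mul_im, ofReal_re]
      exact div_pos (by linarith) (by positivity)
    have h := ((hasSum_Th J T s w₁ w₂ 0 d τ hτ).add
      (hasSum_Th J T s w₁ w₂ 1 d τ hτ)).summable.norm
    refine Summable.of_nonneg_of_le (fun n => by positivity) (fun n => ?_) h
    have e : par 0 c n + par 1 c n = c n := by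
      unfold par
      rcases Nat.mod_two_eq_zero_or_one n with h | h <;> simp [h]
    rw [← add_mul, e, norm_mul, J.norm]
    refine mul_le_mul_of_nonneg_left ?_ (norm_nonneg _)
    have e2 : ((n : ℂ) * τ / (12 : ℕ)).im = n * (-(Real.log t) / (2 * π)) := by
      have : (n : ℂ) * τ / (12 : ℕ) = I * ((n * (-(Real.log t) / (2 * π)) : ℝ) : ℂ) := by
        rw [hτd]
        generalize Real.log t = L
        push_cast
        ring
      rw [this, I_mul_im, ofReal_re]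
    rw [e2, show -(2 * π * (n * (-(Real.log t) / (2 * π)))) = n * Real.log t by field_simp,
      Real.exp_nat_mul, Real.exp_log ht0]
    exact pow_le_pow_left₀ hr0 hrt n
  · obtain ⟨v, hv, hv0⟩ := Finset.exists_ne_zero_of_sum_ne_zero hn
    obtain ⟨h1, h2⟩ := (mem_Rq n v).1 hv
    obtain ⟨h3, h4⟩ := Qf_mod v h2
    have h6 := h4 (left_ne_zero_of_mul hv0)
    rw [h1] at h3 h6
    have h7 : n % 3 = 1 := by omega
    have h8 : n % 4 = 0 ∨ n % 4 = 1 := by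
      rcases Int.emod_two_eq_zero_or_one v.1 with k | k <;> rw [k] at h3 <;> omega
    rw [← Nat.mod_mod_of_dvd n (show 3 ∣ 12 by decide)] at h7
    rw [← Nat.mod_mod_of_dvd n (show 4 ∣ 12 by decide)] at h8
    have h9 := Nat.mod_lt n (show 0 < 12 by decide)
    generalize n % 12 = r at h7 h8 h9 ⊢
    interval_cases r <;> simp_all
  · have hτ0 : τ ≠ 0 := by rintro rfl; simp at hτ
    have hτ' : 0 < (-1 / τ).im := by
      rw [neg_div, one_div, neg_im, inv_im, neg_div, neg_neg]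
      exact div_pos hτ (normSq_pos.2 hτ0)
    unfold ser
    rw [Nat.cast_one, one_mul, (hasSum_Th J T s w₁ w₂ μ d _ hτ').tsum_eq,
      (hasSum_Th J T s w₁ w₂ 0 d τ hτ).tsum_eq,
      (hasSum_Th J T s w₁ w₂ 1 d τ hτ).tsum_eq, lawTh S J T s w₁ w₂ h0 μ hμ τ hτ]
    have ht : τ = I * Jh τ ^ 2 := by
      rw [J.sq]
      linear_combination τ * I_sq
    have ht2 : τ ^ d = I ^ d * Jh τ ^ (2 * d) := by
      rw [pow_mul, ← mul_pow, ← ht]
    rw [ht2]
    ring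

end

end Pool.Agent.MP_5f72fe_nt.H70P
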