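import Pool.Agent.MP_5f72fe_nt.H3.SpecC

/-! The pairing of a row with a cusp form of the plus space is a coefficient of its Shimura lift. -/

namespace Pool.Agent.MP_5f72fe_nt.H70

open Pool.Agent.MP_5f72fe_nt.H3
open Complex Filter Topology MeasureTheory Set
open scoped Real NumberTheorySymbols

noncomputable section

namespace UV

/-- the family that is unfolded -/
def hh (N k m : ℕ) (c : ℕ → ℂ) (v : ℤ × ℤ) (τ : ℂ) : ℂ :=
  (Ot N k m 0 v τ * ser 4 (par 0 c) (-(starRingEnd ℂ) τ) +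
    Ot N k m 1 v τ * ser 4 (par 1 c) (-(starRingEnd ℂ) τ)) * (τ.im ^ (k + 1 / 2 : ℝ) : ℝ)

theorem contE : Continuous E := by
  unfold E
  fun_prop

theorem odd_of {N k : ℕ} (h : Adm N k) : Odd N := Nat.odd_iff.2 (by have := h.2.2; omega)

theorem pos_of {N k : ℕ} (h : Adm N k) : 0 < N := (odd_of h).pos

theorem gs_div {N k : ℕ} (h : Adm N k) : GS N / (√N : ℝ) = I ^ (k % 2) := by
  have h0 : ((√N : ℝ) : ℂ) ≠ 0 :=
    ofReal_ne_zero.2 (Real.sqrt_pos.2 (Nat.cast_pos.2 (pos_of h))).ne'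
  have h1 := h.2.2
  rw [GS, mul_div_cancel_left₀ _ h0]
  rcases Nat.mod_two_eq_zero_or_one k with hk | hk
  · rw [if_pos (by omega), hk, pow_zero]
  · rw [if_neg (by omega), hk, pow_one]

theorem im_neg_conj (τ : ℂ) : (-(starRingEnd ℂ) τ).im = τ.im := by simp

theorem sup_mod {N k μ n : ℕ} {c : ℕ → ℂ} (h : Adm N k) (hc : VL k c) (hμ : μ < 2)
    (hn : par μ c n ≠ 0) : n % 4 = N * μ % 4 := by
  have h1 : n % 2 = μ := by
    by_contra h0
    exact hn (if_neg h0)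
  have h2 := hc.2.1 n fun h0 => hn (by simp [par, h0])
  have h3 := h.2.2
  interval_cases μ <;> omega

theorem lawS (hJ : RowJH) (hF : RowFAM) {N k : ℕ} (h : Adm N k) (m : ℕ) {c : ℕ → ℂ} (hc : VL k c)
    (a δ : ℤ) (τ : ℂ) (hτ : 0 < τ.im) : hh N k m c (a, δ) (-1 / τ) = hh N k m c (δ, -a) τ := by
  by_cases hv : (a, δ) = (0, 0)
  · obtain ⟨rfl, rfl⟩ := Prod.mk.inj hv
    simp [hh, Ot]
  have hv' : ((δ, -a) : ℤ × ℤ) ≠ 0 := fun h0 => hv (by
    obtain ⟨h1, h2⟩ := Prod.mk.inj h0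
    rw [h1, neg_eq_zero.1 h2])
  have hτ0 : τ ≠ 0 := fun h0 => by simp [h0] at hτ
  have hn0 : ((‖τ‖ : ℝ) : ℂ) ≠ 0 := ofReal_ne_zero.2 (norm_ne_zero_iff.2 hτ0)
  have hσ : 0 < (-(starRingEnd ℂ) τ).im := by rwa [im_neg_conj]
  have e1 : -(starRingEnd ℂ) (-1 / τ) = -1 / (((1 : ℕ) : ℂ) * -(starRingEnd ℂ) τ) := by
    simp [div_neg, neg_div]
  have e2 : ∀ μ < 2, Ot N k m μ (a, δ) (-1 / τ) = I ^ (k % 2) * Jh τ * τ ^ k *
      ((Ot N k m 0 (δ, -a) τ + (-1) ^ μ * Ot N k m 1 (δ, -a) τ) / (√2 : ℝ)) := by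
    intro μ hμ
    have e : (a : ℂ) * (-1 / τ) + δ = (δ * τ + ((-a : ℤ) : ℂ)) / τ := by
      push_cast
      field_simp
      ring
    simp only [Ot, if_neg hv', if_neg (show ¬ ((a, δ) : ℤ × ℤ) = 0 from hv)]
    rw [hF.lawS N a δ m μ τ (odd_of h) h.2.1 hv hμ hτ, gs_div h, e, div_pow, div_div_eq_mul_div]
    ring
  have e3 : (((-1 / τ).im ^ (k + 1 / 2 : ℝ) : ℝ) : ℂ) =
      (τ.im ^ (k + 1 / 2 : ℝ) : ℝ) / ((‖τ‖ : ℝ) : ℂ) ^ (2 * k + 1) := by
    have e : (-1 / τ).im = τ.im / ‖τ‖ ^ 2 := by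
      rw [neg_div, one_div, neg_im, inv_im, normSq_eq_norm_sq]
      ring
    have e' : (‖τ‖ ^ 2) ^ (k + 1 / 2 : ℝ) = ‖τ‖ ^ (2 * k + 1) := by
      rw [← Real.rpow_natCast, ← Real.rpow_mul (norm_nonneg _), ← Real.rpow_natCast]
      congr 1
      push_cast
      ring
    rw [e, Real.div_rpow hτ.le (by positivity), e']
    push_cast
    rfl
  have e4 : τ ^ k = I ^ k * Jh τ ^ (2 * k) := by
    rw [pow_mul, hJ.sq, ← mul_pow]
    congr 1
    linear_combination τ * I_sq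
  have e5 : (I : ℂ) ^ (k % 2) * I ^ k * I ^ (k + k % 2) = 1 := by
    rw [← pow_add, ← pow_add]
    obtain ⟨j, hj⟩ : ∃ j, k % 2 + k + (k + k % 2) = 4 * j := ⟨(k + k % 2) / 2, by omega⟩
    rw [hj, pow_mul, I_pow_four, one_pow]
  have e6 : (Jh τ * Jh (-(starRingEnd ℂ) τ)) ^ (2 * k + 1) / ((‖τ‖ : ℝ) : ℂ) ^ (2 * k + 1) = 1 := by
    rw [hJ.cj τ hτ, div_self (pow_ne_zero _ hn0)]
  have e7 : ((√2 : ℝ) : ℂ) ^ 2 = 2 := by
    rw [← ofReal_pow, Real.sq_sqrt (by norm_num)]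
    norm_num
  have e8 : ((√2 : ℝ) : ℂ) ≠ 0 := fun h0 => by simp [h0] at e7
  unfold hh
  rw [e1, hc.2.2 _ hσ 0 (by norm_num), hc.2.2 _ hσ 1 (by norm_num), e2 0 (by norm_num),
    e2 1 (by norm_num), e3, e4]
  generalize Ot N k m 0 (δ, -a) τ = A0
  generalize Ot N k m 1 (δ, -a) τ = A1
  generalize ser 4 (par 0 c) (-(starRingEnd ℂ) τ) = c0
  generalize ser 4 (par 1 c) (-(starRingEnd ℂ) τ) = c1
  generalize ((τ.im ^ (k + 1 / 2 : ℝ) : ℝ) : ℂ) = Y
  calc _ = (I ^ (k % 2) * I ^ k * I ^ (k + k % 2)) *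
        ((Jh τ * Jh (-(starRingEnd ℂ) τ)) ^ (2 * k + 1) / ((‖τ‖ : ℝ) : ℂ) ^ (2 * k + 1)) *
        (2 * (A0 * c0 + A1 * c1) / ((√2 : ℝ) : ℂ) ^ 2 * Y) := by ring
    _ = _ := by
      rw [e5, e6, e7]
      ring

theorem shift (hJ : RowJH) {N k μ : ℕ} {c : ℕ → ℂ} (h : Adm N k) (hc : VL k c) (hμ : μ < 2)
    (σ : ℂ) : E (N * μ / 4) * ser 4 (par μ c) (σ - 1) = ser 4 (par μ c) σ := by
  unfold ser
  rw [← tsum_mul_left]
  refine tsum_congr fun n => ?_
  by_cases hn : par μ c n = 0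
  · simp [hn]
  have h1 := sup_mod h hc hμ hn
  obtain ⟨z, hz⟩ : ∃ z : ℤ, ((N * μ : ℕ) : ℤ) = n + 4 * z :=
    ⟨(((N * μ : ℕ) : ℤ) - n) / 4, by omega⟩
  have h2 : (N : ℂ) * μ = n + 4 * z := by exact_mod_cast hz
  have h3 : (N : ℂ) * μ / 4 + n * (σ - 1) / (4 : ℕ) = z + n * σ / (4 : ℕ) := by
    rw [h2]
    push_cast
    ring
  rw [mul_left_comm, ← hJ.add, h3, hJ.add, hJ.int, one_mul]

theorem lawT (hJ : RowJH) (hF : RowFAM) {N k : ℕ} (h : Adm N k) (m : ℕ) {c : ℕ → ℂ} (hc : VL k c)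
    (a δ : ℤ) (τ : ℂ) (hτ : 0 < τ.im) : hh N k m c (a, δ) (τ + 1) = hh N k m c (a, δ + a) τ := by
  by_cases hv : (a, δ) = (0, 0)
  · obtain ⟨rfl, rfl⟩ := Prod.mk.inj hv
    simp [hh, Ot]
  have hv' : ((a, δ + a) : ℤ × ℤ) ≠ 0 := fun h0 => hv (by
    obtain ⟨h1, h2⟩ := Prod.mk.inj h0
    rw [h1, add_zero] at h2
    rw [h1, h2])
  have e1 : -(starRingEnd ℂ) (τ + 1) = -(starRingEnd ℂ) τ - 1 := by
    simp only [map_add, map_one]
    ring
  have e2 : ∀ μ < 2, Ot N k m μ (a, δ) (τ + 1) = E (N * μ / 4) * Ot N k m μ (a, δ + a) τ := by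
    intro μ hμ
    have e : (a : ℂ) * (τ + 1) + δ = a * τ + ((δ + a : ℤ) : ℂ) := by
      push_cast
      ring
    simp only [Ot, if_neg hv', if_neg (show ¬ ((a, δ) : ℤ × ℤ) = 0 from hv)]
    rw [hF.lawT N a δ m μ τ (odd_of h) h.2.1 hv hμ hτ, e]
    ring
  unfold hh
  rw [e1, e2 0 (by norm_num), e2 1 (by norm_num),
    ← shift hJ h hc (show 0 < 2 by norm_num) (-(starRingEnd ℂ) τ),
    ← shift hJ h hc (show 1 < 2 by norm_num) (-(starRingEnd ℂ) τ)]
  simp only [add_im, one_im, add_zero]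
  ring

/-- the closed form of the terms with first entry zero -/
def g0 (N k m : ℕ) (c : ℕ → ℂ) (d : ℕ) (τ : ℂ) : ℂ :=
  GS N * J(d | N) / d ^ k * (E (N * ((m / d : ℕ) : ℂ) ^ 2 * τ / 4) *
    ser 4 (par (m / d % 2) c) (-(starRingEnd ℂ) τ)) * (τ.im ^ (k + 1 / 2 : ℝ) : ℝ)

theorem hh_zero (N k m : ℕ) (c : ℕ → ℂ) (e : ℕ) (τ : ℂ) :
    hh N k m c (0, e + 1) τ = if e + 1 ∣ m then g0 N k m c (e + 1) τ else 0 := by
  have hv : ¬ (((0 : ℤ), (e : ℤ) + 1) : ℤ × ℤ) = 0 := fun h0 => by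
    have := (Prod.mk.inj h0).2
    omega
  have h1 : ((e : ℤ) + 1) = ((e + 1 : ℕ) : ℤ) := by push_cast; rfl
  simp only [hh, Ot, if_neg hv, Cf, if_true]
  rw [h1, ← Int.natCast_div]
  generalize e + 1 = d
  by_cases hd : d ∣ m
  · have hd' : (d : ℤ) ∣ m := Int.natCast_dvd_natCast.2 hd
    rw [if_pos hd, g0]
    rcases Nat.mod_two_eq_zero_or_one (m / d) with h2 | h2
    · rw [if_pos ⟨hd', by omega⟩, if_neg fun h => by have := h.2; omega, h2]
      simp only [Int.cast_natCast, Int.cast_zero]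
      ring
    · rw [if_neg fun h => by have := h.2; omega, if_pos ⟨hd', by omega⟩, h2]
      simp only [Int.cast_natCast, Int.cast_zero]
      ring
  · have hd' : ¬ (d : ℤ) ∣ m := fun h => hd (Int.natCast_dvd_natCast.1 h)
    rw [if_neg hd, if_neg fun h => hd' h.1, if_neg fun h => hd' h.1]
    simp

theorem sm_par {c : ℕ → ℂ} (hc : Sm c) (μ : ℕ) : Sm (par μ c) := fun r h0 h1 =>
  (hc r h0 h1).of_nonneg_of_le (fun n => by positivity) fun n => by
    refine mul_le_mul_of_nonneg_right ?_ (by positivity)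
    unfold par
    split_ifs <;> simp

theorem cont_g0 (hS : RowSER) (N k m : ℕ) {c : ℕ → ℂ} (hc : Sm c) (d : ℕ) :
    ContinuousOn (g0 N k m c d) {τ | 0 < τ.im} := by
  have h1 : ContinuousOn (fun τ : ℂ => ser 4 (par (m / d % 2) c) (-(starRingEnd ℂ) τ))
      {τ | 0 < τ.im} :=
    (hS.diff 4 _ (by norm_num) (sm_par hc _)).continuousOn.comp
      (continuous_conj.neg.continuousOn) fun τ hτ => by simpa using hτ
  have h2 : Continuous fun τ : ℂ => E (N * ((m / d : ℕ) : ℂ) ^ 2 * τ / 4) :=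
    contE.comp (by fun_prop)
  have h3 : Continuous fun τ : ℂ => ((τ.im ^ (k + 1 / 2 : ℝ) : ℝ) : ℂ) :=
    continuous_ofReal.comp (continuous_im.rpow_const fun _ => Or.inr (by positivity))
  exact (continuousOn_const.mul (h2.continuousOn.mul h1)).mul h3.continuousOn

theorem int_E (hJ : RowJH) (z : ℤ) :
    ∫ x in (0 : ℝ)..1, E (z * x) = if z = 0 then 1 else 0 := by
  split_ifs with hz
  · simp [hz, E]
  · have h0 : (2 * π * I * z : ℂ) ≠ 0 := by
      simp [hz, Real.pi_ne_zero]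
    have h1 : ∀ x : ℝ, E (z * x) = cexp (2 * π * I * z * x) := fun x => by
      rw [E, mul_assoc (2 * π * I : ℂ)]
    have h2 : cexp (2 * π * I * z) = 1 := hJ.int z
    simp only [h1]
    rw [integral_exp_mul_complex h0]
    simp [h2]

theorem int_tsum (hJ : RowJH) {a : ℕ → ℂ} (ha : Summable fun n => ‖a n‖) (z : ℕ → ℤ) :
    ∫ x in (0 : ℝ)..1, ∑' n, a n * E (z n * x) = ∑' n, if z n = 0 then a n else 0 := by
  have hn : ∀ n (x : ℝ), ‖a n * E (z n * x)‖ = ‖a n‖ := fun n x => by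
    rw [norm_mul, hJ.norm]
    simp
  have h := intervalIntegral.hasSum_integral_of_dominated_convergence (μ := volume) (a := 0)
    (b := 1) (F := fun n (x : ℝ) => a n * E (z n * x)) (f := fun x => ∑' n, a n * E (z n * x))
    (fun n _ => ‖a n‖)
    (fun n => (continuous_const.mul (contE.comp (by fun_prop))).aestronglyMeasurable)
    (fun n => Eventually.of_forall fun x _ => (hn n x).le)
    (Eventually.of_forall fun x _ => ha) intervalIntegrable_const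
    (Eventually.of_forall fun x _ => (Summable.of_norm (by simpa only [hn] using ha)).hasSum)
  rw [← h.tsum_eq]
  refine tsum_congr fun n => ?_
  rw [intervalIntegral.integral_const_mul, int_E hJ]
  split_ifs <;> simp

theorem inner_int (hS : RowSER) (hJ : RowJH) {N k : ℕ} (h : Adm N k) {c : ℕ → ℂ} (hc : VL k c)
    (t : ℕ) {y : ℝ} (hy : 0 < y) :
    ∫ x in (0 : ℝ)..1, E (N * (t : ℂ) ^ 2 * (x + y * I) / 4) *
      ser 4 (par (t % 2) c) (-(starRingEnd ℂ) (x + y * I)) =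
        c (N * t ^ 2) * (Real.exp (-(π * N * t ^ 2 * y)) : ℝ) := by
  have hμ : t % 2 < 2 := Nat.mod_lt _ (by norm_num)
  have hsq : t ^ 2 % 4 = t % 2 := by
    rcases Nat.even_or_odd' t with ⟨s, rfl | rfl⟩
    · have : (2 * s) ^ 2 = 4 * s ^ 2 := by ring
      omega
    · have : (2 * s + 1) ^ 2 = 4 * (s ^ 2 + s) + 1 := by ring
      omega
  have hmod : N * t ^ 2 % 4 = N * (t % 2) % 4 := by
    rw [Nat.mul_mod, hsq, Nat.mul_mod N (t % 2), Nat.mod_eq_of_lt (hμ.trans (by norm_num))]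
  let a : ℕ → ℂ := fun n =>
    E (N * (t : ℂ) ^ 2 * (y * I) / 4) * (par (t % 2) c n * E (n * (y * I) / (4 : ℕ)))
  let z : ℕ → ℤ := fun n => (((N * t ^ 2 : ℕ) : ℤ) - n) / 4
  have hz : ∀ n, par (t % 2) c n ≠ 0 → ((N * t ^ 2 : ℕ) : ℤ) = n + 4 * z n := fun n hn => by
    have := sup_mod h hc hμ hn
    simp only [z]
    omega
  have ha : Summable fun n => ‖a n‖ := by
    simp only [a, norm_mul (E _)]
    exact (hS.nsum 4 _ _ (by norm_num) (sm_par hc.1 _) (by simpa using hy)).mul_left _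
  have h1 : ∀ x : ℝ, E (N * (t : ℂ) ^ 2 * (x + y * I) / 4) *
      ser 4 (par (t % 2) c) (-(starRingEnd ℂ) (x + y * I)) = ∑' n, a n * E (z n * x) := by
    intro x
    unfold ser
    rw [← tsum_mul_left]
    refine tsum_congr fun n => ?_
    by_cases hn : par (t % 2) c n = 0
    · simp [a, hn]
    have h2 : (N : ℂ) * t ^ 2 = n + 4 * z n := by exact_mod_cast hz n hn
    have h3 : (N : ℂ) * t ^ 2 * (x + y * I) / 4 + n * -(starRingEnd ℂ) (x + y * I) / (4 : ℕ) =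
        N * (t : ℂ) ^ 2 * (y * I) / 4 + n * (y * I) / (4 : ℕ) + z n * x := by
      simp only [map_add, map_mul, conj_ofReal, conj_I]
      push_cast
      linear_combination (x / 4 : ℂ) * h2
    rw [mul_left_comm, ← hJ.add, h3, hJ.add, hJ.add]
    simp only [a]
    ring
  simp only [h1]
  rw [int_tsum hJ ha, tsum_eq_single (N * t ^ 2)]
  · have h4 : z (N * t ^ 2) = 0 := by simp [z]
    have h5 : par (t % 2) c (N * t ^ 2) = c (N * t ^ 2) := by
      have := h.2.2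
      refine if_pos ?_
      rcases Nat.mod_two_eq_zero_or_one t with h6 | h6 <;> rw [h6] at hmod ⊢ <;> omega
    rw [if_pos h4]
    simp only [a]
    rw [h5, mul_left_comm, ← hJ.add, E, ofReal_exp]
    congr 2
    push_cast
    linear_combination (π * N * t ^ 2 * y : ℂ) * I_sq
  · intro n hn
    split_ifs with h4
    · by_cases h5 : par (t % 2) c n = 0
      · simp [a, h5]
      · have := hz n h5
        omega
    · rfl

theorem outer_int (hS : RowSER) (hJ : RowJH) {N k : ℕ} (h : Adm N k) {c : ℕ → ℂ} (hc : VL k c)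
    {m d : ℕ} (ht : 0 < m / d) :
    ∫ y in Ioi (0 : ℝ), (∫ x in (0 : ℝ)..1, g0 N k m c d (x + y * I)) / (y : ℂ) ^ 2 =
      GS N * J(d | N) / d ^ k * c (N * (m / d) ^ 2) *
        ((1 / (π * N * (m / d : ℕ) ^ 2)) ^ (k - 1 / 2 : ℝ) * Real.Gamma (k - 1 / 2) : ℝ) := by
  have hk : (6 : ℝ) ≤ k := by exact_mod_cast h.1
  have hN : (0 : ℝ) < N := Nat.cast_pos.2 (pos_of h)
  have ht' : (0 : ℝ) < (m / d : ℕ) := Nat.cast_pos.2 ht
  rw [← Real.integral_rpow_mul_exp_neg_mul_Ioi (by linarith) (by positivity),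
    ← integral_complex_ofReal, ← integral_const_mul]
  refine setIntegral_congr_fun measurableSet_Ioi fun y hy => ?_
  have hy' : (0 : ℝ) < y := hy
  have h1 : ∀ x : ℝ, ((x : ℂ) + y * I).im = y := fun x => by simp
  simp only [g0, h1]
  rw [intervalIntegral.integral_mul_const, intervalIntegral.integral_const_mul,
    inner_int hS hJ h hc _ hy']
  have h2 : y ^ (k - 1 / 2 - 1 : ℝ) = y ^ (k + 1 / 2 : ℝ) / y ^ 2 := by
    rw [← Real.rpow_natCast, ← Real.rpow_sub hy']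
    congr 1
    push_cast
    ring
  rw [h2]
  push_cast
  ring

theorem fin_int (hJ : RowJH) (hV : RowVB) {N k : ℕ} (h : Adm N k) {c : ℕ → ℂ} (hc : VL k c)
    (hc0 : c 0 = 0) {m d : ℕ} (ht : 0 < m / d) :
    ∫⁻ y in Ioi (0 : ℝ), ∫⁻ x in Ioc (0 : ℝ) 1,
      ENNReal.ofReal (‖g0 N k m c d (x + y * I)‖ / y ^ 2) ≠ ⊤ := by
  have hk : (6 : ℝ) ≤ k := by exact_mod_cast h.1
  have hN : (0 : ℝ) < N := Nat.cast_pos.2 (pos_of h)
  have ht' : (0 : ℝ) < (m / d : ℕ) := Nat.cast_pos.2 ht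
  obtain ⟨C, hC⟩ := hV k c hc hc0
  have hi : IntegrableOn (fun y : ℝ => ‖GS N * J(d | N) / d ^ k‖ * C *
      (y ^ ((k + 1 / 2 : ℝ) / 2 - 2) *
        Real.exp (-(π * N * (m / d : ℕ) ^ 2 / 2) * y ^ (1 : ℝ)))) (Ioi 0) :=
    (integrableOn_rpow_mul_exp_neg_mul_rpow (by linarith) one_pos (by positivity)).const_mul _
  refine ne_top_of_le_ne_top hi.lintegral_lt_top.ne
    (setLIntegral_mono' measurableSet_Ioi fun y hy => ?_)
  have hy' : (0 : ℝ) < y := hy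
  have hone : ∀ b : ENNReal, ∫⁻ _ in Ioc (0 : ℝ) 1, b = b := fun b => by
    rw [setLIntegral_const, Real.volume_Ioc]
    simp
  refine le_trans (setLIntegral_mono' measurableSet_Ioc fun x _ => ENNReal.ofReal_le_ofReal ?_)
    (hone _).le
  have h1 : ((x : ℂ) + y * I).im = y := by simp
  have h2 := hC (m / d % 2) (Nat.mod_lt _ (by norm_num)) (-(starRingEnd ℂ) (x + y * I))
    (by rwa [im_neg_conj, h1])
  rw [im_neg_conj, h1] at h2
  have h3 : ‖E (N * ((m / d : ℕ) : ℂ) ^ 2 * (x + y * I) / 4)‖ =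
      Real.exp (-(π * N * (m / d : ℕ) ^ 2 / 2) * y ^ (1 : ℝ)) := by
    have e : (N * ((m / d : ℕ) : ℂ) ^ 2 * (x + y * I) / 4 : ℂ) =
        ((N * (m / d : ℕ) ^ 2 / 4 : ℝ) : ℂ) * (x + y * I) := by
      simp only [ofReal_div, ofReal_mul, ofReal_pow, ofReal_natCast, ofReal_ofNat]
      ring
    rw [hJ.norm, e, im_ofReal_mul, h1, Real.rpow_one]
    congr 1
    ring
  have h4 : y ^ (k + 1 / 2 : ℝ) / y ^ 2 =
      y ^ ((k + 1 / 2 : ℝ) / 2) * y ^ ((k + 1 / 2 : ℝ) / 2 - 2) := by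
    rw [← Real.rpow_natCast, ← Real.rpow_sub hy', ← Real.rpow_add hy']
    congr 1
    push_cast
    ring
  rw [g0, norm_mul, norm_mul, norm_mul (E _), h3, h1, norm_real,
    Real.norm_of_nonneg (Real.rpow_nonneg hy'.le _), mul_div_assoc _ (y ^ (k + 1 / 2 : ℝ)), h4]
  have h5 : 0 ≤ ‖GS N * J(d | N) / d ^ k‖ * (y ^ ((k + 1 / 2 : ℝ) / 2 - 2) *
      Real.exp (-(π * N * (m / d : ℕ) ^ 2 / 2) * y ^ (1 : ℝ))) := by positivity
  have h6 := mul_le_mul_of_nonneg_left h2 h5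
  linarith

end UV

theorem rowUV : OfUV := by
  intro hS hJ hF hR hV ν N k hν h
  have hk : (6 : ℝ) ≤ k := by exact_mod_cast h.1
  have hN : (0 : ℝ) < N := Nat.cast_pos.2 (UV.pos_of h)
  refine ⟨GS N * ((1 / (π * N)) ^ (k - 1 / 2 : ℝ) * Real.Gamma (k - 1 / 2) : ℝ), ?_,
    fun c hc hc0 m hm => ?_⟩
  · refine mul_ne_zero (fun h0 => ?_) (ofReal_ne_zero.2 ?_)
    · have := UV.gs_div h
      rw [h0, zero_div] at this
      exact pow_ne_zero _ I_ne_zero this.symm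
    · have := Real.Gamma_pos_of_pos (show (0 : ℝ) < k - 1 / 2 by linarith)
      positivity
  have hpos : ∀ d, d ∣ m → 0 < m / d := fun d hd =>
    Nat.div_pos (Nat.le_of_dvd hm hd) (Nat.pos_of_dvd_of_pos hd hm)
  obtain ⟨hi, he⟩ := hν.2.2.2 (UV.hh N k m c) (fun τ _ => by simp [UV.hh, Ot])
    (UV.lawS hJ hF h m hc) (UV.lawT hJ hF h m hc)
    (fun e => by
      have : UV.hh N k m c (0, e + 1) = fun τ => if e + 1 ∣ m then UV.g0 N k m c (e + 1) τ else 0 :=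
        funext (UV.hh_zero N k m c e)
      rw [this]
      split_ifs
      · exact UV.cont_g0 hS N k m hc.1 _
      · exact continuousOn_const)
    (by
      rw [tsum_eq_sum (s := Finset.range m) fun e he => by
        have : ¬ e + 1 ∣ m := fun hd => he (Finset.mem_range.2 (Nat.le_of_dvd hm hd))
        simp [UV.hh_zero, this]]
      refine ENNReal.sum_ne_top.2 fun e _ => ?_
      simp only [UV.hh_zero]
      split_ifs with hd
      · exact UV.fin_int hJ hV h hc hc0 (hpos _ hd)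
      · simp)
  have hae : (fun τ => ∑' v, UV.hh N k m c v τ) =ᵐ[ν] pv k (Brow N k m) c := by
    filter_upwards [hν.2.1] with τ hτ
    obtain ⟨s0, t0⟩ := (hR N k m h hm).2.2 0 (by norm_num) τ hτ
    obtain ⟨s1, t1⟩ := (hR N k m h hm).2.2 1 (by norm_num) τ hτ
    simp only [UV.hh]
    rw [tsum_mul_right, (s0.of_norm.mul_right _).tsum_add (s1.of_norm.mul_right _),
      tsum_mul_right, tsum_mul_right, t0, t1, pv]
  refine ⟨hi.congr hae, ?_⟩
  let G : ℕ → ℂ := fun d => if d ∣ m then GS N * J(d | N) / d ^ k * c (N * (m / d) ^ 2) *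
    ((1 / (π * N * (m / d : ℕ) ^ 2)) ^ (k - 1 / 2 : ℝ) * Real.Gamma (k - 1 / 2) : ℝ) else 0
  have h1 : ∀ e : ℕ, ∫ y in Ioi (0 : ℝ),
      (∫ x in (0 : ℝ)..1, UV.hh N k m c (0, e + 1) (x + y * I)) / (y : ℂ) ^ 2 = G (e + 1) := by
    intro e
    simp only [UV.hh_zero, G]
    split_ifs with hd
    · exact UV.outer_int hS hJ h hc (hpos _ hd)
    · simp
  have h2 : ∑' e : ℕ, G (e + 1) = ∑ d ∈ m.divisors, G d := by
    rw [← tsum_eq_sum (L := SummationFilter.unconditional ℕ) fun d hd =>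
      if_neg fun h0 => hd (Nat.mem_divisors.2 ⟨h0, by omega⟩)]
    refine Nat.succ_injective.tsum_eq (f := G) fun d hd => ?_
    have hd' : d ∣ m := by
      by_contra h0
      exact hd (if_neg h0)
    exact ⟨d - 1, Nat.succ_pred_eq_of_pos (Nat.pos_of_dvd_of_pos hd' hm)⟩
  rw [← integral_congr_ae hae, he]
  simp only [h1]
  rw [h2, shim, Finset.mul_sum, Finset.mul_sum]
  refine Finset.sum_congr rfl fun d hd => ?_
  have hd' : d ∣ m := Nat.dvd_of_mem_divisors hd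
  have ht := hpos d hd'
  have hd0 : (d : ℂ) ≠ 0 := Nat.cast_ne_zero.2 (Nat.pos_of_dvd_of_pos hd' hm).ne'
  simp only [G, if_pos hd']
  have hm' : (m : ℂ) = d * (m / d : ℕ) := by exact_mod_cast (Nat.mul_div_cancel' hd').symm
  generalize m / d = t at ht hm'
  have ht0 : (t : ℂ) ≠ 0 := Nat.cast_ne_zero.2 ht.ne'
  have ht1 : (0 : ℝ) < t := Nat.cast_pos.2 ht
  obtain ⟨j, rfl⟩ : ∃ j, k = j + 1 := ⟨k - 1, by have := h.1; omega⟩
  have h3 : (1 / (π * N * t ^ 2) : ℝ) ^ ((j + 1 : ℕ) - 1 / 2 : ℝ) =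
      (1 / (π * N)) ^ ((j + 1 : ℕ) - 1 / 2 : ℝ) / t ^ (2 * j + 1) := by
    have e : ((t : ℝ) ^ 2) ^ ((j + 1 : ℕ) - 1 / 2 : ℝ) = t ^ (2 * j + 1) := by
      rw [← Real.rpow_natCast, ← Real.rpow_mul ht1.le, ← Real.rpow_natCast]
      congr 1
      push_cast
      ring
    rw [← e, ← Real.div_rpow (by positivity) (by positivity), div_div]
  rw [h3, hm', show 2 * (j + 1) - 1 = 2 * j + 1 by omega, Nat.add_sub_cancel]
  simp only [ofReal_mul, ofReal_div, ofReal_pow, ofReal_natCast]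
  field_simp
  ring

end

end Pool.Agent.MP_5f72fe_nt.H70
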